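import Pool.Agent.Lead.HaarPack2

set_option autoImplicit false

open MeasureTheory Set
open scoped ENNReal

namespace Pool.Agent.Results.MP_5eb27c_an.Packing

universe u

/-- In every locally compact Hausdorff group with an outer regular left Haar measure, every Borel
null set is countably equidecomposable, by left translations and with Borel pieces, with a subset
of any nonempty open set. -/
theorem result :
    ∀ (G : Type u) [Group G] [TopologicalSpace G] [IsTopologicalGroup G]
      [LocallyCompactSpace G] [T2Space G] [MeasurableSpace G] [BorelSpace G]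
      (μ : Measure G) [μ.IsHaarMeasure] [μ.OuterRegular] (E U : Set G),
      MeasurableSet E → μ E = 0 → IsOpen U → U.Nonempty →
      ∃ F : Set G, F ⊆ U ∧ ∃ (A B : ℕ → Set G) (g : ℕ → G),
        (∀ i, MeasurableSet (A i)) ∧ (∀ i, MeasurableSet (B i)) ∧
        Pairwise (fun i j => Disjoint (A i) (A j)) ∧ Pairwise (fun i j => Disjoint (B i) (B j)) ∧
        (⋃ i, A i) = E ∧ (⋃ i, B i) = F ∧ ∀ i, (fun x => g i * x) '' A i = B i := by
  intro G _ _ _ _ _ _ _ μ _ _ E U hE hE0 hU hne
  set ν : Measure G := Measure.haar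
  obtain ⟨δ, hδ, h⟩ := Pool.Agent.Lead.HaarPack.emb_small ν hU hne
  obtain ⟨c, hc⟩ : ∃ c : ℝ≥0∞, c = ((Measure.haarScalarFactor ν μ : NNReal) : ℝ≥0∞) := ⟨_, rfl⟩
  have hct : c ≠ ∞ := hc ▸ ENNReal.coe_ne_top
  have hpos : μ E < δ / (c + 1) := by
    rw [hE0]; exact ENNReal.div_pos hδ (ENNReal.add_ne_top.2 ⟨hct, ENNReal.one_ne_top⟩)
  obtain ⟨O, hEO, hO, hμ⟩ := E.exists_isOpen_lt_of_lt _ hpos
  have hν : ν O ≤ (c + 1) * μ O := by
    rw [hO.measure_eq_iSup_isCompact ν]
    refine iSup_le fun K => iSup_le fun hK => iSup_le fun cK => ?_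
    rw [Measure.measure_isMulInvariant_eq_smul_of_isCompact_closure ν μ cK.closure]
    calc _ = c * μ K := by rw [hc]; rfl
      _ ≤ (c + 1) * μ O := by
        gcongr
        exact le_self_add
  have hlt : ν O < δ := by
    refine hν.trans_lt ?_
    rw [ENNReal.lt_div_iff_mul_lt (Or.inl (by simp))
      (Or.inl (ENNReal.add_ne_top.2 ⟨hct, ENNReal.one_ne_top⟩))] at hμ
    rwa [mul_comm]
  exact ((h O hO hlt).mono hEO subset_rfl).partition hE

end Pool.Agent.Results.MP_5eb27c_an.Packing
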